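import Pool.Agent.helper24.BR.SpecA
import Pool.Agent.helper59.FI.Base

/-! bp:LAM, the weights -/

set_option autoImplicit false

namespace Pool.Agent.BR

open Pool.Agent.helper58.DC Pool.Agent.DI Pool.Agent.GR Pool.Agent.OB Pool.Agent.DR Pool.Agent.FI Pool.Agent.FI3 Pool.Agent.FI4 Pool.Agent.LE

theorem LAM_card {G : Type} [Group G] [Fintype G] (K : Subgroup G) [DecidablePred (· ∈ K)] :
    ∑ y : G, (if y ∈ K then (1 : ℂ) else 0) = Nat.card K := by
  rw [Finset.sum_boole, Nat.card_eq_fintype_card]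
  congr 1
  exact (Fintype.card_subtype _).symm

/-- double counting of the pairs `(τ, c)`, `τ ∈ T`, `c ∈ K`. -/
theorem LAM_dc {G : Type} [Group G] [Finite G] (T K : Subgroup G) (Z : Set G)
    (hZ : ∀ x, x ∈ Z ↔ ∃ t ∈ T, ∃ c ∈ K, t * c = x) (F : G → ℂ) (hF : ∀ t, ∀ c ∈ K, F (t * c) = F t) :
    (Nat.card (T ⊓ K : Subgroup G) : ℂ) * ∑ᶠ x ∈ Z, F x = Nat.card K * ∑ᶠ t ∈ (T : Set G), F t := by
  classical
  have hft : Fintype G := Fintype.ofFinite G
  have h1 : ∀ (A : Set G) (f : G → ℂ), ∑ᶠ x ∈ A, f x = ∑ x : G, if x ∈ A then f x else 0 := by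
    intro A f
    rw [finsum_mem_def, finsum_eq_sum_of_fintype]
    simp only [Set.indicator_apply]
  rw [h1, h1]
  have h2 : ∀ t : G, (Nat.card K : ℂ) * F t = ∑ x : G, if t⁻¹ * x ∈ K then F x else 0 := by
    intro t
    rw [← LAM_card K, Finset.sum_mul]
    refine Fintype.sum_equiv (Equiv.mulLeft t) _ _ ?_
    intro y
    change _ = if t⁻¹ * (t * y) ∈ K then F (t * y) else 0
    rw [inv_mul_cancel_left]
    by_cases hy : y ∈ K
    · rw [if_pos hy, if_pos hy, one_mul, hF t y hy]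
    · rw [if_neg hy, if_neg hy, zero_mul]
  have h3 : (Nat.card K : ℂ) * ∑ t : G, (if t ∈ (T : Set G) then F t else 0) =
      ∑ x : G, F x * ∑ t : G, if t ∈ T ∧ t⁻¹ * x ∈ K then (1 : ℂ) else 0 := by
    rw [Finset.mul_sum]
    have h4 : ∀ t : G, (Nat.card K : ℂ) * (if t ∈ (T : Set G) then F t else 0) =
        ∑ x : G, if t ∈ T ∧ t⁻¹ * x ∈ K then F x else 0 := by
      intro t
      by_cases ht : t ∈ T
      · rw [if_pos (SetLike.mem_coe.2 ht), h2]
        refine Finset.sum_congr rfl fun x _ => ?_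
        exact if_congr (by simp [ht]) rfl rfl
      · rw [if_neg (fun h => ht (SetLike.mem_coe.1 h)), mul_zero]
        symm
        refine Finset.sum_eq_zero fun x _ => if_neg fun h => ht h.1
    rw [Finset.sum_congr rfl fun t _ => h4 t, Finset.sum_comm]
    refine Finset.sum_congr rfl fun x _ => ?_
    rw [Finset.mul_sum]
    refine Finset.sum_congr rfl fun t _ => ?_
    split_ifs
    · rw [mul_one]
    · rw [mul_zero]
  rw [h3, Finset.mul_sum]
  refine Finset.sum_congr rfl fun x _ => ?_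
  by_cases hx : x ∈ Z
  · rw [if_pos hx]
    obtain ⟨t₀, ht₀, c₀, hc₀, rfl⟩ := (hZ x).1 hx
    rw [mul_comm]
    congr 1
    rw [← LAM_card]
    refine Fintype.sum_equiv (Equiv.mulLeft t₀) _ _ ?_
    intro y
    change _ = if t₀ * y ∈ T ∧ (t₀ * y)⁻¹ * (t₀ * c₀) ∈ K then (1 : ℂ) else 0
    refine if_congr ?_ rfl rfl
    rw [Subgroup.mem_inf]
    have e : (t₀ * y)⁻¹ * (t₀ * c₀) = y⁻¹ * c₀ := by group
    rw [e, Subgroup.mul_mem_cancel_right K hc₀, inv_mem_iff, Subgroup.mul_mem_cancel_left T ht₀]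
  · rw [if_neg hx, mul_zero]
    symm
    rw [mul_eq_zero]
    right
    refine Finset.sum_eq_zero fun t _ => if_neg fun h => hx ?_
    rw [hZ]
    exact ⟨t, h.1, t⁻¹ * x, h.2, by group⟩

theorem LAM_czbot (G : Type) [Group G] : cz (⊥ : Subgroup G) = ⊤ := by
  rw [eq_top_iff]
  intro x _
  rw [Subgroup.mem_centralizer_iff]
  intro y hy
  have h : y = 1 := hy
  rw [h, one_mul, mul_one]

/-- the set of the transporters is `T K` -/
theorem LAM_set (hQFU4 : QFU4_stmt) (hEXB : EXB_stmt) {p : ℕ} {M : Ideal (integralClosure ℤ ℂ)} (hS : Setup p M)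
    {G : Type} [Group G] [Finite G] {D : Subgroup G} {x : G} {θ χ : G → ℂ} (lo : LoA p M D x θ χ) {z : G} (hz : z ∈ D) (g : G) :
    (g * z * g⁻¹ ∈ D ∧ SB M (Cz (⊤ : Subgroup G) z) θ (cjF g⁻¹ θ)) ↔
      ∃ t ∈ TT M D θ, ∃ c ∈ Cz (⊤ : Subgroup G) z, t * c = g := by
  have hcK : cz D ≤ Cz (⊤ : Subgroup G) z := by
    intro c hc
    rw [mem_Cz]
    exact ⟨Subgroup.mem_top c, (Subgroup.mem_centralizer_iff.1 hc) z hz⟩
  have hDK : D ≤ Cz (⊤ : Subgroup G) z := (le_cz_of_com lo.rt.com).trans hcK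
  have hpD : IsPGroup p D := lo.rt.dfa.pgrp
  have hth := lo.rt.th
  constructor
  · rintro ⟨h1, h2⟩
    obtain ⟨ψ, hψ, hψ'⟩ := hEXB p M hS G (Cz (⊤ : Subgroup G) z) D hpD hDK θ (by
      rw [inf_eq_right.2 hcK]
      exact hth)
    have h3 := SB_conj (h2.symm.trans hψ') g
    have h4 : funMap (MulAut.conj g) (cjF g⁻¹ θ) = θ := by
      change funMap (MulAut.conj g) (funMap (MulAut.conj g⁻¹) θ) = θ
      rw [← funMap_mul, mul_inv_cancel, funMap_one']
    rw [h4, ← cj_Cz, cj_top] at h3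
    have hb := LAM_czbot G
    obtain ⟨k, hk, hkg⟩ := hQFU4 p M hS G D x θ χ lo ⊥ bot_le z hz g (by
      rw [hb]
      exact Subgroup.mem_top g) h1 ψ (by
      rw [hb]
      exact hψ) (by
      rw [hb]
      exact hψ') (by
      rw [hb]
      exact h3)
    rw [hb, mem_Cz] at hk
    refine ⟨k * g, hkg, (k * g)⁻¹ * g, ?_, by group⟩
    rw [mem_Cz]
    refine ⟨Subgroup.mem_top _, ?_⟩
    have h5 : (g * z * g⁻¹) * k⁻¹ = k⁻¹ * (g * z * g⁻¹) := by
      have h6 := hk.2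
      calc (g * z * g⁻¹) * k⁻¹ = k⁻¹ * (k * (g * z * g⁻¹)) * k⁻¹ := by group
        _ = k⁻¹ * ((g * z * g⁻¹) * k) * k⁻¹ := by rw [h6]
        _ = k⁻¹ * (g * z * g⁻¹) := by group
    calc z * ((k * g)⁻¹ * g) = g⁻¹ * ((g * z * g⁻¹) * k⁻¹) * g := by group
      _ = g⁻¹ * (k⁻¹ * (g * z * g⁻¹)) * g := by rw [h5]
      _ = (k * g)⁻¹ * g * z := by group
  · rintro ⟨t, ht, k, hk, rfl⟩
    have hkz := (mem_Cz.1 hk).2
    constructor
    · have h1 : t * k * z * (t * k)⁻¹ = t * z * t⁻¹ := by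
        calc t * k * z * (t * k)⁻¹ = t * (k * z) * k⁻¹ * t⁻¹ := by group
          _ = t * (z * k) * k⁻¹ * t⁻¹ := by rw [hkz]
          _ = t * z * t⁻¹ := by group
      rw [h1]
      exact (Subgroup.mem_normalizer_iff.1 ht.1 z).1 hz
    · have h1 : cjF (t * k)⁻¹ θ = funMap (MulAut.conj k⁻¹) (funMap (MulAut.conj t⁻¹) θ) := by
        rw [← funMap_mul, mul_inv_rev]
      rw [h1]
      refine SB.symm ?_
      refine (SB_inner ((Cz (⊤ : Subgroup G) z).inv_mem hk) _).trans ?_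
      have ht'' := (TT M D θ).inv_mem ht
      refine TRNb hcK ?_ (fun y hy => IrrOn_zero hth hy) ht''.2
      intro y hy
      rw [funMap_apply]
      refine IrrOn_zero hth fun h2 => hy ?_
      have h3 := cz_conj ht''.1 h2
      have h4 : t⁻¹ * (t⁻¹⁻¹ * y * t⁻¹) * t⁻¹⁻¹ = y := by group
      rwa [h4] at h3

theorem LAM_lx0 {G : Type} [Group G] {D : Subgroup G} {l : D →* ℂˣ} {v : G} (h : v ∉ D) : lx D l v = 0 := by
  unfold lx
  rw [dif_neg h]

/-- the case where `u` lies in `D` -/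
theorem LAM_in (hQFU4 : QFU4_stmt) (hEXB : EXB_stmt) {p : ℕ} {M : Ideal (integralClosure ℤ ℂ)} (hS : Setup p M)
    {G : Type} [Group G] [Finite G] {D : Subgroup G} {x : G} {θ χ : G → ℂ} (lo : LoA p M D x θ χ) (l : D →* ℂˣ) {v : G} (hv : v ∈ D) :
    ∑ᶠ t ∈ {t : G | SB M (Cz (⊤ : Subgroup G) v) θ (cjF t⁻¹ θ)},
      ci M D θ (t * v * t⁻¹) / Nat.card (Cz (⊤ : Subgroup G) v) * lx D l (t * v * t⁻¹) =
    (∑ᶠ τ ∈ (TT M D θ : Set G), lx D l (τ * v * τ⁻¹)) / Nat.card (cz D) := by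
  classical
  set K := Cz (⊤ : Subgroup G) v with hK
  set T := TT M D θ with hT
  set F : G → ℂ := fun t => ci M D θ (t * v * t⁻¹) / Nat.card K * lx D l (t * v * t⁻¹) with hFd
  have h1 : ∑ᶠ t ∈ {t : G | SB M K θ (cjF t⁻¹ θ)}, F t =
      ∑ᶠ t ∈ {t : G | t * v * t⁻¹ ∈ D ∧ SB M K θ (cjF t⁻¹ θ)}, F t := by
    rw [finsum_mem_def, finsum_mem_def]
    refine finsum_congr fun t => ?_
    rw [Set.indicator_apply, Set.indicator_apply]
    by_cases ht : t * v * t⁻¹ ∈ D
    · refine if_congr ?_ rfl rfl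
      exact ⟨fun h => ⟨ht, h⟩, fun h => h.2⟩
    · have h0 : F t = 0 := by
        rw [hFd]
        dsimp only
        rw [LAM_lx0 ht, mul_zero]
      rw [h0, ite_self, ite_self]
  rw [h1]
  have hFc : ∀ t, ∀ c ∈ K, F (t * c) = F t := by
    intro t c hc
    have hcv := (mem_Cz.1 hc).2
    have e : t * c * v * (t * c)⁻¹ = t * v * t⁻¹ := by
      calc t * c * v * (t * c)⁻¹ = t * (c * v) * c⁻¹ * t⁻¹ := by group
        _ = t * (v * c) * c⁻¹ * t⁻¹ := by rw [hcv]
        _ = t * v * t⁻¹ := by group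
    rw [hFd]
    dsimp only
    rw [e]
  have h2 := LAM_dc T K {t : G | t * v * t⁻¹ ∈ D ∧ SB M K θ (cjF t⁻¹ θ)}
    (fun g => LAM_set hQFU4 hEXB hS lo hv g) F hFc
  have hTK : (T ⊓ K : Subgroup G) = Cz T v := by
    ext y
    rw [Subgroup.mem_inf, mem_Cz, mem_Cz]
    simp
  have hci : ∀ t ∈ T, ci M D θ (t * v * t⁻¹) = (Nat.card (Cz T v) : ℂ) / Nat.card (cz D) := by
    intro t ht
    unfold ci
    have e1 : Cz (TT M D θ) (t * v * t⁻¹) = cj t (Cz T v) := by
      rw [← cj_Cz, cj_self ht]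
    rw [e1, card_cj]
  have h3 : ∑ᶠ t ∈ (T : Set G), F t =
      (Nat.card (Cz T v) : ℂ) / Nat.card (cz D) / Nat.card K * ∑ᶠ τ ∈ (T : Set G), lx D l (τ * v * τ⁻¹) := by
    rw [mul_finsum_mem' _ _ (Set.toFinite _)]
    refine finsum_mem_congr rfl fun t ht => ?_
    rw [hFd]
    dsimp only
    rw [hci t ht]
  rw [h3, hTK] at h2
  have hc1 : (Nat.card (Cz T v) : ℂ) ≠ 0 := by exact_mod_cast Nat.card_pos.ne'
  have hc2 : (Nat.card K : ℂ) ≠ 0 := by exact_mod_cast Nat.card_pos.ne'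
  have hc3 : (Nat.card (cz D) : ℂ) ≠ 0 := by exact_mod_cast Nat.card_pos.ne'
  apply mul_left_cancel₀ hc1
  rw [h2]
  field_simp

/-- **LAM** -/
theorem LAM (hQFU4 : QFU4_stmt) (hEXB : EXB_stmt) : LAM_stmt := by
  classical
  intro p M hS G _ _ D x θ χ lo l S hpS hcom η hη
  constructor
  · intro hSB
    have hind : Induces M η χ := by
      rw [← SB_top_iff hS]
      exact hSB.trans ((SB_top_iff hS).2 lo.rt.ind)
    obtain ⟨g, hg, hgs⟩ := lo.con S hpS η hη hind
    refine ⟨g, hg, fun u hu => ?_⟩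
    have hv : g * u * g⁻¹ ∈ D := hg (by
      rw [mem_cjS]
      have : g⁻¹ * (g * u * g⁻¹) * g = u := by group
      rw [this]
      exact hu)
    set v := g * u * g⁻¹ with hvd
    have hKv : Cz (⊤ : Subgroup G) v = cj g (Cz (⊤ : Subgroup G) u) := by
      rw [hvd, ← cj_Cz, cj_top]
    have hle : cz (cjS g S) ≤ Cz (⊤ : Subgroup G) v := by
      intro y hy
      rw [mem_Cz]
      refine ⟨Subgroup.mem_top y, (Subgroup.mem_centralizer_iff.1 hy) v ?_⟩
      rw [SetLike.mem_coe, mem_cjS]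
      have : g⁻¹ * v * g = u := by rw [hvd]; group
      rw [this]
      exact hu
    have hK1 : SB M (Cz (⊤ : Subgroup G) v) θ (cjF g η) := by
      refine TRNb hle (fun y hy => IrrOn_zero lo.rt.th fun h => hy (cz_mono hg h)) ?_ hgs
      intro y hy
      refine funMap_zero (fun z hz => IrrOn_zero hη hz) g y ?_
      rw [← cj_cz]
      exact hy
    have hcard : (Nat.card (Cz (⊤ : Subgroup G) u) : ℂ) = Nat.card (Cz (⊤ : Subgroup G) v) := by
      rw [hKv, card_cj]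
    rw [← LAM_in hQFU4 hEXB hS lo l hv]
    unfold Lam
    rw [finsum_mem_def, finsum_mem_def]
    rw [← finsum_comp_equiv (Equiv.mulRight g)]
    refine finsum_congr fun t => ?_
    rw [Set.indicator_apply, Set.indicator_apply]
    have e1 : (Equiv.mulRight g) t = t * g := rfl
    rw [e1]
    have e2 : t * g * u * (t * g)⁻¹ = t * v * t⁻¹ := by rw [hvd]; group
    refine if_congr ?_ ?_ rfl
    · have e3 : funMap (MulAut.conj g) (cjF (t * g)⁻¹ θ) = cjF t⁻¹ θ := by
        change funMap (MulAut.conj g) (funMap (MulAut.conj (t * g)⁻¹) θ) = funMap (MulAut.conj t⁻¹) θ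
        rw [← funMap_mul]
        congr 2
        group
      have e4 : funMap (MulAut.conj g⁻¹) (cjF t⁻¹ θ) = cjF (t * g)⁻¹ θ := by
        change funMap (MulAut.conj g⁻¹) (funMap (MulAut.conj t⁻¹) θ) = funMap (MulAut.conj (t * g)⁻¹) θ
        rw [← funMap_mul, mul_inv_rev]
      have e5 : funMap (MulAut.conj g⁻¹) (cjF g η) = η := by
        change funMap (MulAut.conj g⁻¹) (funMap (MulAut.conj g) η) = η
        rw [← funMap_mul, inv_mul_cancel, funMap_one']
      rw [Set.mem_ofPred_eq, Set.mem_ofPred_eq]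
      constructor
      · intro h
        have h6 := SB_conj h g
        rw [← hKv, e3] at h6
        exact hK1.trans h6
      · intro h
        have h6 := SB_conj (hK1.symm.trans h) g⁻¹
        rw [e4, e5, hKv, cj_inv_cj] at h6
        exact h6
    · rw [e2, hcard]
  · intro hn u hu
    unfold Lam
    refine finsum_mem_eq_zero_of_forall_eq_zero fun t ht => ?_
    rw [Set.mem_ofPred_eq] at ht
    by_cases hD : t * u * t⁻¹ ∈ D
    · exfalso
      apply hn
      have h1 : SB M (⊤ : Subgroup G) η (cjF t⁻¹ θ) := by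
        refine TRNb le_top ?_ ?_ ht
        · intro y hy
          refine IrrOn_zero hη fun h => hy ?_
          rw [mem_Cz]
          exact ⟨Subgroup.mem_top y, (Subgroup.mem_centralizer_iff.1 h) u hu⟩
        · intro y hy
          refine funMap_zero (fun z hz => IrrOn_zero lo.rt.th hz) t⁻¹ y fun h => hy ?_
          rw [mem_cj, inv_inv] at h
          rw [mem_Cz]
          refine ⟨Subgroup.mem_top y, ?_⟩
          have h2 := (Subgroup.mem_centralizer_iff.1 h) _ hD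
          calc u * y = t⁻¹ * (t * u * t⁻¹ * (t * y * t⁻¹)) * t := by group
            _ = t⁻¹ * (t * y * t⁻¹ * (t * u * t⁻¹)) * t := by rw [h2]
            _ = y * u := by group
      exact h1.trans (SB_inner (Subgroup.mem_top _) θ)
    · rw [LAM_lx0 hD, mul_zero]

end Pool.Agent.BR
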