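import Pool.Agent.helper45.BR.Spec

/-!
# Project br: NWD, no wandering sequences (infinitesimal Sullivan argument)
-/

set_option autoImplicit false

open Complex Metric Set Filter Topology MeasureTheory MPS Pool.Agent.helper98.ILF
  Pool.Agent.helper16.Multibrot

noncomputable section

namespace BR

theorem NWD_st (a₁ a₂ : ℂ) :
    ∃ s t : ℂ, (s ≠ 0 ∨ t ≠ 0) ∧ ‖s‖ + ‖t‖ ≤ 1 ∧ s * a₁ + t * a₂ = 0 := by
  by_cases h : a₁ = 0
  · exact ⟨1, 0, Or.inl one_ne_zero, by simp, by simp [h]⟩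
  · have h1 : 0 < ‖a₁‖ := norm_pos_iff.2 h
    have h2 : 0 ≤ ‖a₂‖ := norm_nonneg _
    have hpos : 0 < ‖a₁‖ + ‖a₂‖ := by linarith
    have hne : ((‖a₁‖ + ‖a₂‖ : ℝ) : ℂ) ≠ 0 := by
      exact_mod_cast hpos.ne'
    refine ⟨-a₂ / ((‖a₁‖ + ‖a₂‖ : ℝ) : ℂ), a₁ / ((‖a₁‖ + ‖a₂‖ : ℝ) : ℂ),
      Or.inr (div_ne_zero h hne), ?_, ?_⟩
    · rw [norm_div, norm_div, norm_neg, Complex.norm_real, Real.norm_eq_abs, abs_of_pos hpos,
        ← add_div, add_comm, div_self hpos.ne']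
    · field_simp
      ring

theorem NWD_ind {z₀ : ℂ} {ρ : ℝ} (f : ℂ → ℂ) (hf : ∀ z ∈ ball z₀ ρ, ‖f z‖ ≤ 1) (z : ℂ) :
    ‖(ball z₀ ρ).indicator f z‖ ≤ 1 := by
  by_cases hz : z ∈ ball z₀ ρ
  · rw [indicator_of_mem hz]; exact hf z hz
  · rw [indicator_of_notMem hz, norm_zero]; exact zero_le_one

theorem NWD (hCMP : CMP_stmt) (hEXT : EXT_stmt) (hOFB : OFB_stmt) (hMOM : MOM_stmt)
    (hCTB : NLF.CTB_stmt) : NWD_stmt := by
  intro n c U hn hc hW
  obtain ⟨hop, hco, -, -, -⟩ := hCMP n c (U 0) hn hc (hW.comp 0)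
  obtain ⟨z₀, hz₀⟩ := hco.nonempty
  obtain ⟨e, he, hball⟩ := Metric.isOpen_iff.1 hop z₀ hz₀
  obtain ⟨ρ, hρ, hρ2⟩ : ∃ ρ : ℝ, 0 < ρ ∧ closedBall z₀ (2 * ρ) ⊆ U 0 :=
    ⟨e / 4, by linarith, (closedBall_subset_ball (by linarith)).trans hball⟩
  have hB : ball z₀ ρ ⊆ U 0 :=
    ((ball_subset_ball (by linarith)).trans ball_subset_closedBall).trans hρ2
  obtain ⟨E, hE1, hE2⟩ := hEXT n c U hn hc hW
  -- the two test forms
  obtain ⟨ν₁, hν₁⟩ : ∃ ν₁ : ℂ → ℂ, ν₁ = (ball z₀ ρ).indicator (fun _ => (1 : ℂ)) := ⟨_, rfl⟩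
  obtain ⟨ν₂, hν₂⟩ : ∃ ν₂ : ℂ → ℂ,
      ν₂ = (ball z₀ ρ).indicator (fun z => (starRingEnd ℂ) (z - z₀) / (ρ : ℂ)) := ⟨_, rfl⟩
  have hcont : Continuous fun z : ℂ => (starRingEnd ℂ) (z - z₀) / (ρ : ℂ) :=
    (Complex.continuous_conj.comp (continuous_id.sub continuous_const)).div_const _
  have m1 : Measurable ν₁ := by
    rw [hν₁]; exact measurable_const.indicator measurableSet_ball
  have m2 : Measurable ν₂ := by
    rw [hν₂]; exact hcont.measurable.indicator measurableSet_ball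
  have b1 : ∀ z, ‖ν₁ z‖ ≤ 1 := by
    intro z
    rw [hν₁]
    exact NWD_ind _ (fun _ _ => by simp) z
  have b2 : ∀ z, ‖ν₂ z‖ ≤ 1 := by
    intro z
    rw [hν₂]
    refine NWD_ind _ (fun w hw => ?_) z
    rw [norm_div, RCLike.norm_conj, Complex.norm_real, Real.norm_eq_abs, abs_of_pos hρ,
      div_le_one hρ]
    have : dist w z₀ < ρ := hw
    rw [dist_eq_norm] at this
    exact this.le
  have s1 : ∀ z, ν₁ z ≠ 0 → z ∈ U 0 := by
    intro z hz
    rw [hν₁] at hz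
    by_contra hn'
    exact hz (indicator_of_notMem (fun h => hn' (hB h)) _)
  have s2 : ∀ z, ν₂ z ≠ 0 → z ∈ U 0 := by
    intro z hz
    rw [hν₂] at hz
    by_contra hn'
    exact hz (indicator_of_notMem (fun h => hn' (hB h)) _)
  obtain ⟨F1, -⟩ := hE1 ν₁ m1 b1 s1
  obtain ⟨F2, -⟩ := hE1 ν₂ m2 b2 s2
  obtain ⟨s, t, hst, hst1, hst0⟩ := NWD_st (NLF.CT (E ν₁) c) (NLF.CT (E ν₂) c)
  have mν : Measurable fun w => s * ν₁ w + t * ν₂ w :=
    (measurable_const.mul m1).add (measurable_const.mul m2)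
  have bν : ∀ z, ‖s * ν₁ z + t * ν₂ z‖ ≤ 1 := by
    intro z
    refine (norm_add_le _ _).trans ?_
    rw [norm_mul, norm_mul]
    have h1 := mul_le_mul_of_nonneg_left (b1 z) (norm_nonneg s)
    have h2 := mul_le_mul_of_nonneg_left (b2 z) (norm_nonneg t)
    linarith
  have sν : ∀ z, s * ν₁ z + t * ν₂ z ≠ 0 → z ∈ U 0 := by
    intro z hz
    by_contra hn'
    have h1 : ν₁ z = 0 := by
      by_contra h; exact hn' (s1 z h)
    have h2 : ν₂ z = 0 := by
      by_contra h; exact hn' (s2 z h)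
    exact hz (by rw [h1, h2]; ring)
  obtain ⟨hBF, hEU⟩ := hE1 (fun w => s * ν₁ w + t * ν₂ w) mν bν sν
  obtain ⟨μ, hμ⟩ : ∃ μ : ℂ → ℂ, μ = E (fun w => s * ν₁ w + t * ν₂ w) := ⟨_, rfl⟩
  rw [← hμ] at hBF hEU
  have hlin : ∀ z, μ z = s * E ν₁ z + t * E ν₂ z := by
    intro z; rw [hμ]; exact hE2 ν₁ ν₂ s t z
  have i1 := (hCTB (E ν₁) F1.meas F1.bd F1.supp).1 c
  have i2 := (hCTB (E ν₂) F2.meas F2.bd F2.supp).1 c
  have hCT : NLF.CT μ c = 0 := by
    have h1 : (fun z : ℂ => μ z / (z - c)) =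
        fun z : ℂ => s * (E ν₁ z / (z - c)) + t * (E ν₂ z / (z - c)) := by
      funext z
      rw [hlin z]; ring
    have h2 : NLF.CT μ c = s * NLF.CT (E ν₁) c + t * NLF.CT (E ν₂) c := by
      unfold NLF.CT
      rw [h1, integral_add (i1.const_mul s) (i2.const_mul t), integral_const_mul,
        integral_const_mul]
    rw [h2, hst0]
  -- the form `μ` on `U 0`
  have hμU : ∀ z ∈ U 0, μ z = (ball z₀ ρ).indicator
      (fun z => s + t * ((starRingEnd ℂ) (z - z₀) / (ρ : ℂ))) z := by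
    intro z hz
    rw [hEU z hz, hν₁, hν₂]
    by_cases hzb : z ∈ ball z₀ ρ
    · rw [indicator_of_mem hzb, indicator_of_mem hzb, indicator_of_mem hzb]; ring
    · rw [indicator_of_notMem hzb, indicator_of_notMem hzb, indicator_of_notMem hzb]; ring
  have hμ0 : ∀ z ∈ U 0, ρ ≤ ‖z - z₀‖ → μ z = 0 := by
    intro z hz hzρ
    rw [hμU z hz, indicator_of_notMem]
    intro h
    have : dist z z₀ < ρ := h
    rw [dist_eq_norm] at this
    linarith
  have hoff := hOFB n c (U 0) μ z₀ ρ hn hc (hW.comp 0) hρ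
    ((closedBall_subset_closedBall (by linarith)).trans hρ2) hBF hμ0 hCT
  have hin : ∀ z : ℂ, ‖z - z₀‖ < 2 * ρ → z ∈ U 0 := by
    intro z hz
    refine hρ2 ?_
    rw [mem_closedBall, dist_eq_norm]
    exact hz.le
  obtain ⟨I0, I1⟩ := hMOM μ z₀ ρ (2 * ρ) hρ (by linarith) hBF.meas hBF.bd hBF.supp
    (fun z h1 h2 => hμ0 z (hin z h2) h1) (fun b h1 h2 => hoff b (hin b h2) h1)
  obtain ⟨g, hg⟩ : ∃ g : ℂ → ℂ, g = fun z => s + t * ((starRingEnd ℂ) (z - z₀) / (ρ : ℂ)) :=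
    ⟨_, rfl⟩
  have hgc : Continuous g := by
    rw [hg]; exact continuous_const.add (continuous_const.mul hcont)
  have hμg : ∀ z ∈ ball z₀ ρ, μ z = g z := by
    intro z hz
    rw [hμU z (hB hz), indicator_of_mem hz, hg]
  have J0 : ∫ z in ball z₀ ρ, g z = 0 := by
    rw [← I0]
    exact setIntegral_congr_fun measurableSet_ball fun z hz => (hμg z hz).symm
  have J1 : ∫ z in ball z₀ ρ, g z * (z - z₀) = 0 := by
    rw [← I1]
    refine setIntegral_congr_fun measurableSet_ball fun z hz => ?_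
    show g z * (z - z₀) = μ z * (z - z₀)
    rw [hμg z hz]
  have hint : ∀ h : ℂ → ℂ, Continuous h → IntegrableOn h (ball z₀ ρ) := by
    intro h hh
    exact (hh.continuousOn.integrableOn_compact (isCompact_closedBall z₀ ρ)).mono_set
      ball_subset_closedBall
  have hgg : ∀ z, ((‖g z‖ ^ 2 : ℝ) : ℂ) =
      (starRingEnd ℂ) s * g z + (starRingEnd ℂ) t / (ρ : ℂ) * (g z * (z - z₀)) := by
    intro z
    have h1 : ((‖g z‖ ^ 2 : ℝ) : ℂ) = g z * (starRingEnd ℂ) (g z) := by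
      rw [Complex.mul_conj, Complex.normSq_eq_norm_sq]
    have h2 : (starRingEnd ℂ) (g z) =
        (starRingEnd ℂ) s + (starRingEnd ℂ) t * ((z - z₀) / (ρ : ℂ)) := by
      rw [hg]
      simp only [map_add, map_mul, map_div₀, Complex.conj_conj, Complex.conj_ofReal]
    rw [h1, h2]
    ring
  have J2 : ∫ z in ball z₀ ρ, ((‖g z‖ ^ 2 : ℝ) : ℂ) = 0 := by
    have h1 : (fun z => ((‖g z‖ ^ 2 : ℝ) : ℂ)) = fun z =>
        (starRingEnd ℂ) s * g z + (starRingEnd ℂ) t / (ρ : ℂ) * (g z * (z - z₀)) :=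
      funext hgg
    have hc2 : Continuous fun z => g z * (z - z₀) := hgc.mul (continuous_id.sub continuous_const)
    have k1 : IntegrableOn (fun z => (starRingEnd ℂ) s * g z) (ball z₀ ρ) :=
      hint _ (continuous_const.mul hgc)
    have k2 : IntegrableOn (fun z => (starRingEnd ℂ) t / (ρ : ℂ) * (g z * (z - z₀)))
        (ball z₀ ρ) := hint _ (continuous_const.mul hc2)
    rw [h1, integral_add k1 k2, integral_const_mul, integral_const_mul]
    have h2 : ∫ z in ball z₀ ρ, g z * (z - z₀) = 0 := J1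
    rw [J0, h2]
    ring
  have J3 : ∫ z in ball z₀ ρ, ‖g z‖ ^ 2 = 0 := by
    have h1 : ∫ z in ball z₀ ρ, ((‖g z‖ ^ 2 : ℝ) : ℂ) =
        ((∫ z in ball z₀ ρ, ‖g z‖ ^ 2 : ℝ) : ℂ) := integral_ofReal
    rw [h1] at J2
    exact Complex.ofReal_eq_zero.1 J2
  have hsq : Continuous fun z => ‖g z‖ ^ 2 := (hgc.norm).pow 2
  have J4 : (fun z => ‖g z‖ ^ 2) =ᵐ[volume.restrict (ball z₀ ρ)] 0 := by
    rw [← integral_eq_zero_iff_of_nonneg (fun z => by positivity)]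
    · exact J3
    · exact (hsq.continuousOn.integrableOn_compact (isCompact_closedBall z₀ ρ)).mono_set
        ball_subset_closedBall
  have J5 : EqOn (fun z => ‖g z‖ ^ 2) 0 (ball z₀ ρ) :=
    Measure.eqOn_open_of_ae_eq J4 isOpen_ball hsq.continuousOn continuousOn_const
  have J6 : ∀ z ∈ ball z₀ ρ, g z = 0 := by
    intro z hz
    have h1 : ‖g z‖ ^ 2 = 0 := J5 hz
    exact norm_eq_zero.1 (pow_eq_zero_iff (two_ne_zero) |>.1 h1)
  have hρc : (ρ : ℂ) ≠ 0 := by exact_mod_cast hρ.ne'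
  have hs0 : s = 0 := by
    have h1 := J6 z₀ (mem_ball_self hρ)
    rw [hg] at h1
    simpa using h1
  have ht0 : t = 0 := by
    have h1 := J6 (z₀ + (ρ / 2 : ℝ)) (by
      rw [mem_ball, dist_eq_norm, add_sub_cancel_left, Complex.norm_real, Real.norm_eq_abs,
        abs_of_pos (by linarith)]
      linarith)
    rw [hg] at h1
    simp only [hs0, add_sub_cancel_left, Complex.conj_ofReal, zero_add] at h1
    push_cast at h1
    rcases mul_eq_zero.1 h1 with h2 | h2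
    · exact h2
    · exfalso
      field_simp at h2
      norm_num at h2
  rcases hst with h | h
  · exact h hs0
  · exact h ht0

end BR
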